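import Pool.Agent.Helper650_HSK.FinA

/-!
# Kernels for d-Hitting-Set with `O(k ^ (1 + 1/d + ε))` vertices

`Inst`, `IsHyp d`, `Yes` (in `Pool.Agent.Helper650_HSK.Defs`) are the instances `((n, E), k)` of the
hitting set problem for hypergraphs with vertices `0, ..., n - 1` and edges of size at most `d`, and
the yes-instances. `PolyTime` is computability by a Turing machine of Mathlib in polynomial time,
`bits` the coding of data by bit strings (`Pool.Agent.NPC`).
-/

namespace Pool.Agent.Results.MP_595d8c_lc.FewVertices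

open Pool.Agent.NPC Pool.Agent.Helper650_HSK

/-- For every `d ≥ 3` and `ε > 0` the problem `p`-`d`-Hitting-Set has a kernelization (polynomial
time, size of the kernel bounded by a polynomial in `k`) whose kernels have at most
`C * (k + 1) ^ (1 + 1 / d + ε)` vertices. -/
theorem result (d : ℕ) (hd : 3 ≤ d) (ε : ℝ) (hε : 0 < ε) :
    ∃ (K : List Bool → List Bool) (C : ℝ) (h : Polynomial ℕ), PolyTime K ∧
      ∀ x : Inst, IsHyp d x.1 → ∃ y : Inst, K (bits x) = bits y ∧ IsHyp d y.1 ∧
        (Yes x ↔ Yes y) ∧ y.2 ≤ y.1.1 ∧ (bits y).length ≤ h.eval x.2 ∧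
        (y.1.1 : ℝ) ≤ C * ((x.2 : ℝ) + 1) ^ (1 + 1 / (d : ℝ) + ε) :=
  main_A d hd ε hε

end Pool.Agent.Results.MP_595d8c_lc.FewVertices
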