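import Pool.Agent.Helper650_LocX.Main

/-!
# The exact exponent of the number of vertices of local kernels for `d`-Hitting-Set
-/

namespace Pool.Agent.Results.MP_595d8c_lc.LocalOptimal

open Pool.Agent.Helper650_LocX

/-- For all `d ≥ 3`, `r ≥ 1`, `B` and `ε > 0` there are constants `c, C > 0` such that for all `k ≥ 1`,
all `n` with `6 k ≤ n`, `k + d ≤ n` and `n ≤ (k + 1) ^ B`, and all `t` with `1 ≤ t ≤ d` (the input
hypergraphs have `n` vertices and edges of at least `t` and at most `d` vertices): there is a `1`-local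
kernel with at most `C min (n, k ^ (1 + 1 / d)) k ^ ε` vertices; every `r`-local kernel, and every
solution encoding, gives an `r`-local encoding with the same number of vertices; and every `r`-local
encoding has at least `c min (n, k ^ (1 + 1 / d)) k ^ (- ε)` vertices. -/
theorem result (d : ℕ) (hd : 3 ≤ d) (r : ℕ) (hr : 1 ≤ r) (B : ℕ) (ε : ℝ) (hε : 0 < ε) :
    ∃ c C : ℝ, 0 < c ∧ 0 < C ∧ ∀ k n t : ℕ, 1 ≤ k → 6 * k ≤ n → k + d ≤ n → n ≤ (k + 1) ^ B →
      1 ≤ t → t ≤ d →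
      (∃ N : ℕ, (N : ℝ) ≤ C * min (n : ℝ) ((k : ℝ) ^ (1 + 1 / (d : ℝ))) * (k : ℝ) ^ ε ∧
        LocalKernel d t n 1 k N) ∧
      (∀ N : ℕ, LocalKernel d t n r k N ∨ SolutionEncoding d t n k N →
        LocalEncoding d t n r k N) ∧
      ∀ N : ℕ, LocalEncoding d t n r k N →
        c * min (n : ℝ) ((k : ℝ) ^ (1 + 1 / (d : ℝ))) * (k : ℝ) ^ (-ε) ≤ N :=
  main_locx d hd r hr B ε hε

end Pool.Agent.Results.MP_595d8c_lc.LocalOptimal
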