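import Pool.Agent.Helper650_Lin.Main

/-!
# Randomized lossy kernels for d-Hitting-Set with `O(k)` vertices

`Inst`, `IsHyp d`, `Hits` (in `Pool.Agent.Helper650_HSK.Defs`) are the instances `((n, E), k)` of the
hitting set problem for hypergraphs with vertices `0, ..., n - 1` and edges of size at most `d`, and
the hitting sets. `PolyTime` is computability by a Turing machine of Mathlib in polynomial time,
`bits` the coding of data by bit strings (`Pool.Agent.NPC`).
-/

namespace Pool.Agent.Results.MP_595d8c_lc.LossyLinear

open Pool.Agent.NPC Pool.Agent.Helper650_HSK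

/-- For every `d` and `ε > 0` there are polynomial-time functions `K` (the kernelization) and `L`
(the lifting of solutions) which get, besides the instance `x = (H, k)`, a map `c` from the list of
the vertices in the edges of `H` to `{0, ..., N - 1}`, where `N` is any number between `C (k + 1)` and
`2 C (k + 1)` (for example a power of two, so that `c` is given by random bits).  The kernel `y` has
the same parameter `k`, `2 C (k + 1)` vertices and `O(k ^ d)` edges.  Every hitting set of `H` gives a hitting set of
the kernel which is not larger, and every hitting set `X` of the kernel is lifted to a hitting set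
`S` of `H`; and for all but a fraction `1 / (k + 1)` of the maps `c` (those not in `B`) the set `S` has
at most `(1 + ε) |X|` elements if `|X| ≤ k`. -/
theorem result (d : ℕ) (hd : 1 ≤ d) (ε : ℝ) (hε : 0 < ε) :
    ∃ (K L : List Bool → List Bool) (C : ℕ) (h : Polynomial ℕ), PolyTime K ∧ PolyTime L ∧
      ∀ x : Inst, IsHyp d x.1 → ∀ N : ℕ, C * (x.2 + 1) ≤ N → N ≤ 2 * C * (x.2 + 1) →
        ∃ B : Finset (Fin x.1.2.flatten.dedup.length → Fin N),
          (x.2 + 1) * B.card ≤ N ^ x.1.2.flatten.dedup.length ∧
          ∀ c : Fin x.1.2.flatten.dedup.length → Fin N, ∃ y : Inst,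
            K (bits (x, List.ofFn (fun i => (c i).val))) = bits y ∧ IsHyp d y.1 ∧ y.2 = x.2 ∧
            y.1.1 = 2 * C * (x.2 + 1) ∧ y.1.2.length ≤ (y.1.1 + 1) ^ d ∧
            (bits y).length ≤ h.eval x.2 ∧
            (∀ S : Finset ℕ, Hits S x.1.2 →
              ∃ X ⊆ Finset.range y.1.1, Hits X y.1.2 ∧ X.card ≤ S.card) ∧
            ∀ X : List ℕ, Hits X.toFinset y.1.2 →
              ∃ S : List ℕ, L (bits ((x, List.ofFn (fun i => (c i).val)), X)) = bits S ∧
                S.Nodup ∧ (∀ v ∈ S, v < x.1.1) ∧ Hits S.toFinset x.1.2 ∧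
                (c ∉ B → X.length ≤ x.2 → (S.length : ℝ) ≤ (1 + ε) * X.length) :=
  Helper650_Lin.main_lin d hd ε hε

end Pool.Agent.Results.MP_595d8c_lc.LossyLinear
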