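import Pool.Agent.Helper650_HSK.FinB

/-!
# Near-linear kernels for d-Hitting-Set, randomized or with polynomially many instances

`Inst`, `IsHyp d`, `Yes` (in `Pool.Agent.Helper650_HSK.Defs`) are the instances `((n, E), k)` of the
hitting set problem for hypergraphs with vertices `0, ..., n - 1` and edges of size at most `d`, and
the yes-instances. `PolyTime` is computability by a Turing machine of Mathlib in polynomial time,
`bits` the coding of data by bit strings (`Pool.Agent.NPC`).
-/

namespace Pool.Agent.Results.MP_595d8c_lc.NearLinearList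

open Pool.Agent.NPC Pool.Agent.Helper650_HSK

open Classical in
/-- For every `d ≥ 3`, `c` and `ε > 0`: in polynomial time one can map an instance `x` with parameter
`k` to a nonempty list of at most `h(k)` instances of size at most `h(k)` and with at most
`C * (k + 1) ^ (1 + ε)` vertices each, such that if `x` is a no-instance then all of them are
no-instances, and if `x` is a yes-instance then all but a fraction `1 / (k + 1) ^ c` of them are
yes-instances. -/
theorem result (d : ℕ) (hd : 3 ≤ d) (c : ℕ) (ε : ℝ) (hε : 0 < ε) :
    ∃ (K : List Bool → List Bool) (C : ℝ) (h : Polynomial ℕ), PolyTime K ∧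
      ∀ x : Inst, IsHyp d x.1 → ∃ ys : List Inst, K (bits x) = bits ys ∧ ys ≠ [] ∧
        ys.length ≤ h.eval x.2 ∧
        (∀ y ∈ ys, IsHyp d y.1 ∧ (Yes y → Yes x) ∧ y.2 ≤ y.1.1 ∧
          (bits y).length ≤ h.eval x.2 ∧ (y.1.1 : ℝ) ≤ C * ((x.2 : ℝ) + 1) ^ (1 + ε)) ∧
        (Yes x → (x.2 + 1) ^ c * (ys.filter (fun y => decide (¬ Yes y))).length ≤
          ys.length) :=
  main_B d hd c ε hε

end Pool.Agent.Results.MP_595d8c_lc.NearLinearList
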